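import Mathlib

namespace Pool.Agent.H.MP_b44c8b_co

/-- sets (given by predicates) admitting a 3-good partition, built part by part -/
inductive G : (ℕ → Prop) → Prop
  | nil : G (fun _ => False)
  | cons (A : ℕ → Prop) (p : Finset ℕ) (j : ℕ) : G A → (∀ x ∈ p, ¬ A x) → p.Nonempty →
      p.card ≤ 3 → ∑ x ∈ p, x = 3 ^ j → G (fun x => x ∈ p ∨ A x)

theorem G.congr {A B : ℕ → Prop} (h : G A) (e : ∀ x, A x ↔ B x) : G B := by
  have : A = B := funext fun x => propext (e x)
  exact this ▸ h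

theorem G.one {A : ℕ → Prop} (h : G A) (a j : ℕ) (ha : ¬ A a) (e : a = 3 ^ j) :
    G (fun x => x = a ∨ A x) :=
  (G.cons A {a} j h (by simpa using ha) (by simp) (by simp) (by simpa using e)).congr (by simp)

theorem G.two {A : ℕ → Prop} (h : G A) (a b j : ℕ) (ha : ¬ A a) (hb : ¬ A b) (hab : a ≠ b)
    (e : a + b = 3 ^ j) : G (fun x => x = a ∨ x = b ∨ A x) :=
  (G.cons A {a, b} j h (by simp [ha, hb]) (by simp) (by rw [Finset.card_pair hab]; omega)
    (by rw [Finset.sum_pair hab]; exact e)).congr (by simp [or_assoc])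

theorem G.three {A : ℕ → Prop} (h : G A) (a b c j : ℕ) (ha : ¬ A a) (hb : ¬ A b) (hc : ¬ A c)
    (hab : a ≠ b) (hac : a ≠ c) (hbc : b ≠ c)
    (e : a + b + c = 3 ^ j) : G (fun x => x = a ∨ x = b ∨ x = c ∨ A x) :=
  (G.cons A {a, b, c} j h (by simp [ha, hb, hc]) (by simp) Finset.card_le_three
    (by rw [Finset.sum_insert (by simp [hab, hac]), Finset.sum_pair hbc, ← e]; ring)).congr
    (by simp [or_assoc])

theorem G.union {A B : ℕ → Prop} (hA : G A) (hB : G B) (d : ∀ x, A x → ¬ B x) :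
    G (fun x => A x ∨ B x) := by
  induction hA with
  | nil => exact hB.congr (by simp)
  | cons A p j _ hp hne hc hs ih =>
    have := G.cons _ p j (ih (fun x hx => d x (Or.inr hx)))
      (fun x hx h => h.elim (hp x hx) (d x (Or.inl hx))) hne hc hs
    exact this.congr (by simp [or_assoc])

theorem G.extract0 {A : ℕ → Prop} (hA : G A) (a : ℕ) (ha : A a) :
    ∃ (p : Finset ℕ) (j : ℕ), a ∈ p ∧ (∀ x ∈ p, A x) ∧ p.card ≤ 3 ∧ ∑ x ∈ p, x = 3 ^ j ∧
      G (fun x => A x ∧ x ∉ p) := by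
  induction hA with
  | nil => exact ha.elim
  | cons A p j hG hp hne hc hs ih =>
    rcases ha with ha | ha
    · refine ⟨p, j, ha, fun x hx => Or.inl hx, hc, hs, hG.congr fun x => ?_⟩
      constructor
      · intro h; exact ⟨Or.inr h, fun h' => hp x h' h⟩
      · rintro ⟨h | h, h'⟩
        · exact (h' h).elim
        · exact h
    · obtain ⟨q, i, h1, h2, h3, h4, h5⟩ := ih ha
      refine ⟨q, i, h1, fun x hx => Or.inr (h2 x hx), h3, h4, ?_⟩
      refine (G.cons _ p j h5 (fun x hx h => hp x hx h.1) hne hc hs).congr fun x => ?_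
      constructor
      · rintro (h | h)
        · exact ⟨Or.inl h, fun h' => hp x h (h2 x h')⟩
        · exact ⟨Or.inr h.1, h.2⟩
      · rintro ⟨h | h, h'⟩
        · exact Or.inl h
        · exact Or.inr ⟨h, h'⟩

theorem G.extract {A : ℕ → Prop} (hA : G A) (a : ℕ) (ha : A a) :
    (∃ j, a = 3 ^ j) ∨
    (∃ y j, A y ∧ y ≠ a ∧ a + y = 3 ^ j ∧ G (fun x => A x ∧ x ≠ a ∧ x ≠ y)) ∨
    (∃ y z j, A y ∧ A z ∧ y ≠ a ∧ z ≠ a ∧ y ≠ z ∧ a + y + z = 3 ^ j ∧
      G (fun x => A x ∧ x ≠ a ∧ x ≠ y ∧ x ≠ z)) := by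
  obtain ⟨p, j, h1, h2, h3, h4, h5⟩ := hA.extract0 a ha
  have hc := Finset.card_erase_of_mem h1
  have hs := Finset.add_sum_erase p (fun x => x) h1
  have hm : ∀ x, x ∈ p ↔ x = a ∨ x ∈ p.erase a := by
    intro x; by_cases h : x = a <;> simp [h, h1]
  have hn : ∀ x ∈ p.erase a, x ≠ a := fun x hx => Finset.ne_of_mem_erase hx
  have : (p.erase a).card = 0 ∨ (p.erase a).card = 1 ∨ (p.erase a).card = 2 := by omega
  rcases this with h | h | h
  · rw [Finset.card_eq_zero] at h
    left; refine ⟨j, ?_⟩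
    rw [h] at hs; simp at hs; omega
  · obtain ⟨y, hy⟩ := Finset.card_eq_one.1 h
    right; left
    rw [hy] at hs hm hn
    refine ⟨y, j, h2 y (by simp [hm]), hn y (by simp), ?_, h5.congr fun x => by simp [hm]⟩
    simp at hs; omega
  · obtain ⟨y, z, hyz, hy⟩ := Finset.card_eq_two.1 h
    right; right
    rw [hy] at hs hm hn
    refine ⟨y, z, j, h2 y (by simp [hm]), h2 z (by simp [hm]), hn y (by simp), hn z (by simp),
      hyz, ?_, h5.congr fun x => by simp [hm]⟩
    rw [Finset.sum_pair hyz] at hs; omega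

theorem G.part {A : ℕ → Prop} (hA : G A) : ∀ s : Finset ℕ, (∀ x, x ∈ s ↔ A x) →
    ∃ P : Finpartition s, ∀ p ∈ P.parts, p.card ≤ 3 ∧ ∃ j, ∑ x ∈ p, x = 3 ^ j := by
  induction hA with
  | nil =>
    intro s hs
    have : s = ∅ := by ext x; simp [hs]
    subst this
    exact ⟨Finpartition.empty _, by simp [Finpartition.empty]⟩
  | cons A p j hG hp hne hc hs ih =>
    intro s h
    obtain ⟨P, hP⟩ := ih (s \ p) (fun x => by
      simp only [Finset.mem_sdiff, h]
      constructor
      · rintro ⟨h1 | h1, h2⟩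
        · exact (h2 h1).elim
        · exact h1
      · intro h1; exact ⟨Or.inr h1, fun h2 => hp x h2 h1⟩)
    refine ⟨P.extend (b := p) (by simpa [Finset.nonempty_iff_ne_empty] using hne)
      Finset.sdiff_disjoint ?_, ?_⟩
    · apply Finset.sdiff_union_of_subset
      intro x hx; exact (h x).2 (Or.inl hx)
    · intro q hq
      simp only [Finpartition.extend_parts, Finset.mem_insert] at hq
      rcases hq with rfl | hq
      · exact ⟨hc, j, hs⟩
      · exact hP q hq

theorem odd3 (j : ℕ) : 3 ^ j % 2 = 1 := by simp [Nat.pow_mod]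

/-- a set symmetric under `x ↦ T - x` is covered by pairs -/
theorem pairs (j T : ℕ) (hT : T = 3 ^ j) (Q : ℕ → Prop) (hQ : ∀ x, Q x → x < T ∧ Q (T - x)) :
    G Q := by
  classical
  have ho : T % 2 = 1 := hT ▸ odd3 j
  have : ∀ m, 2 * m ≤ T + 1 → G (fun x => Q x ∧ (x < m ∨ T < x + m)) := by
    intro m
    induction m with
    | zero =>
      intro _
      exact G.nil.congr fun x => ⟨False.elim, fun h => by have := hQ x h.1; omega⟩
    | succ m ih =>
      intro hm
      have h := ih (by omega)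
      by_cases hq : Q m
      · refine (h.two m (T - m) j (by omega) (by omega) (by omega) (by omega)).congr fun x => ?_
        have h2 := (hQ m hq).2
        constructor
        · rintro (rfl | rfl | h3)
          · exact ⟨hq, by omega⟩
          · exact ⟨h2, by omega⟩
          · exact ⟨h3.1, by omega⟩
        · rintro ⟨h3, h4⟩
          have := hQ x h3
          by_cases h5 : x = m
          · exact Or.inl h5
          by_cases h6 : x = T - m
          · exact Or.inr (Or.inl h6)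
          exact Or.inr (Or.inr ⟨h3, by omega⟩)
      · refine h.congr fun x => ⟨fun h3 => ⟨h3.1, by omega⟩, fun h3 => ⟨h3.1, ?_⟩⟩
        have h4 := hQ x h3.1
        have h5 : x ≠ m := fun e => hq (e ▸ h3.1)
        have h6 : T - x ≠ m := fun e => hq (e ▸ h4.2)
        omega
  exact (this ((T + 1) / 2) (by omega)).congr fun x => ⟨fun h => h.1, fun h => ⟨h, by omega⟩⟩

/-- membership in the family `(a+i, b+i, c-2i)`, `i < L` -/
def F (a b c L x : ℕ) : Prop :=
  (a ≤ x ∧ x < a + L) ∨ (b ≤ x ∧ x < b + L) ∨ (x ≤ c ∧ c < x + 2 * L ∧ (c - x) % 2 = 0)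

theorem fam (j a b c L : ℕ) (e : a + b + c = 3 ^ j) (hL : 2 * L ≤ c + 1)
    (h1 : a + L ≤ b ∨ b + L ≤ a) (h2 : a + 3 * L ≤ c + 2 ∨ c < a) (h3 : b + 3 * L ≤ c + 2 ∨ c < b) :
    G (F a b c L) := by
  induction L with
  | zero => exact G.nil.congr fun x => ⟨False.elim, fun h => by unfold F at h; omega⟩
  | succ L ih =>
    have h := ih (by omega) (by omega) (by omega) (by omega)
    refine (h.three (a + L) (b + L) (c - 2 * L) j ?_ ?_ ?_ ?_ ?_ ?_ ?_).congr fun x => ?_
    all_goals (try unfold F); omega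

/-- the reduction around `T = 3^j` -/
theorem red (j T r : ℕ) (hT : T = 3 ^ j) (N : ℕ → Prop) (hN : G N)
    (h1 : ∀ d, N d → 0 < d ∧ d < T ∧ ¬ N (T - d))
    (h2 : G (fun x => (T ≤ x ∧ x ≤ T + r) ∨ (x < T ∧ N (T - x)))) :
    G (fun x => 1 ≤ x ∧ x ≤ T + r) := by
  have hp := pairs j T hT (fun x => 0 < x ∧ x < T ∧ ¬ N x ∧ ¬ N (T - x)) (by
    rintro x ⟨a, b, c, d⟩
    refine ⟨b, by omega, by omega, d, ?_⟩
    rwa [show T - (T - x) = x by omega])
  have h3 := hN.union hp (fun x hx h => h.2.2.1 hx)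
  have h4 := h2.union h3 (by
    rintro x (hx | hx) (h | h)
    · have := h1 x h; omega
    · omega
    · exact (h1 x h).2.2 hx.2
    · exact h.2.2.2 hx.2)
  have hT0 : 0 < T := hT ▸ pow_pos (by norm_num) j
  refine h4.congr fun x => ⟨?_, fun h => ?_⟩
  · rintro ((h | h) | h | h)
    · omega
    · have := h1 _ h.2; omega
    · have := h1 _ h; omega
    · omega
  · by_cases hx : T ≤ x
    · exact Or.inl (Or.inl ⟨hx, h.2⟩)
    by_cases h5 : N (T - x)
    · exact Or.inl (Or.inr ⟨by omega, h5⟩)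
    by_cases h6 : N x
    · exact Or.inr (Or.inl h6)
    exact Or.inr (Or.inr ⟨by omega, by omega, h6, h5⟩)

end Pool.Agent.H.MP_b44c8b_co
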