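import Pool.Agent.H.MP_b44c8b_co.A

namespace Pool.Agent.H.MP_b44c8b_co

theorem p3 {T j : ℕ} (hT : T = 3 ^ j) : 3 * T = 3 ^ (j + 1) := by rw [hT]; ring

/-- Kotzig array on `[T-(3k+1), T+3k+1]` -/
theorem kot (j T k : ℕ) (hT : T = 3 ^ j) (h : 3 * k + 1 < T) :
    G (fun x => T ≤ x + (3 * k + 1) ∧ x ≤ T + (3 * k + 1)) := by
  obtain ⟨M, rfl⟩ : ∃ M, T = M + (3 * k + 1) := ⟨T - (3 * k + 1), by omega⟩
  have e := p3 hT
  have f1 := fam (j + 1) (M + 4 * k + 2) (M + 3 * k + 1) (M + 2 * k) (k + 1) (by omega) (by omega)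
    (by omega) (by omega) (by omega)
  have f2 := fam (j + 1) (M + 5 * k + 3) (M + 2 * k + 1) (M + 2 * k - 1) k (by omega) (by omega)
    (by omega) (by omega) (by omega)
  exact (f1.union f2 (by unfold F; omega)).congr (by unfold F; omega)

theorem c0 (j T k : ℕ) (hT : T = 3 ^ j) (h : 2 * (3 * k) < T) :
    G (fun x => (T ≤ x ∧ x ≤ T + 3 * k) ∨ (x < T ∧ (1 ≤ T - x ∧ T - x ≤ 3 * k))) := by
  obtain ⟨M, rfl⟩ : ∃ M, T = M + 3 * k := ⟨T - 3 * k, by omega⟩
  have e := p3 hT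
  have f1 := fam (j + 1) M (M + 3 * k + 1) (M + 6 * k - 1) k (by omega) (by omega)
    (by omega) (by omega) (by omega)
  have f2 := fam (j + 1) (M + k) (M + 2 * k) (M + 6 * k) k (by omega) (by omega)
    (by omega) (by omega) (by omega)
  have f3 := (f1.union f2 (by unfold F; omega)).one (M + 3 * k) j (by unfold F; omega) hT
  exact f3.congr (by unfold F; omega)

theorem cAg (j T k i : ℕ) (hT : T = 3 ^ j) (h : 6 * k + 4 < T) (hi : i ≤ k) :
    G (fun x => (T ≤ x ∧ x ≤ T + (3 * k + 2)) ∨ (x < T ∧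
      ((1 ≤ T - x ∧ T - x ≤ 3 * k + 2 ∧ T - x ≠ 3 * k + 1 - i ∧ T - x ≠ 3 * k + 2 - i) ∨
        T - x = 6 * k + 3 - 2 * i))) := by
  obtain ⟨w, rfl⟩ : ∃ w, k = i + w := ⟨k - i, by omega⟩
  obtain ⟨M, rfl⟩ : ∃ M, T = M + (6 * i + 6 * w + 3) := ⟨T - (6 * i + 6 * w + 3), by omega⟩
  have e := p3 hT
  have f2 := fam (j + 1) (M + 4 * i + 4 * w + 3) (M + 5 * i + 5 * w + 3) (M + 9 * i + 9 * w + 3)
    (i + w) (by omega) (by omega) (by omega) (by omega) (by omega)
  have f1 := fam (j + 1) (M + 3 * i + 3 * w + 1) (M + 6 * i + 6 * w + 4) (M + 9 * i + 9 * w + 4)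
    i (by omega) (by omega) (by omega) (by omega) (by omega)
  have f3 := fam (j + 1) (M + 4 * i + 3 * w + 3) (M + 7 * i + 6 * w + 4) (M + 7 * i + 9 * w + 2)
    w (by omega) (by omega) (by omega) (by omega) (by omega)
  have f4 := (f1.union f2 (by unfold F; omega)).union f3 (by unfold F; omega)
  have f5 := (f4.three (M + 2 * i) (M + 9 * i + 9 * w + 5) (M + 7 * i + 9 * w + 4) (j + 1)
    (by unfold F; omega) (by unfold F; omega) (by unfold F; omega) (by omega) (by omega) (by omega)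
    (by omega)).one (M + (6 * i + 6 * w + 3)) j (by unfold F; omega) hT
  exact f5.congr (by unfold F; omega)

theorem cAa (j T k i : ℕ) (hT : T = 3 ^ j) (h : 6 * k + 4 < T) (hi : 2 * i ≤ k) :
    G (fun x => (T ≤ x ∧ x ≤ T + (3 * k + 2)) ∨ (x < T ∧
      ((1 ≤ T - x ∧ T - x ≤ 3 * k + 2 ∧ T - x ≠ k + 1 - i ∧ T - x ≠ 3 * k + 2 - i) ∨
        T - x = 4 * k + 3 - 2 * i))) := by
  obtain ⟨w, rfl⟩ : ∃ w, k = i + w := ⟨k - i, by omega⟩
  obtain ⟨M, rfl⟩ : ∃ M, T = M + (4 * i + 4 * w + 3) := ⟨T - (4 * i + 4 * w + 3), by omega⟩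
  have e := p3 hT
  have f1 := fam (j + 1) (M + i + w + 1) (M + 4 * i + 4 * w + 4) (M + 7 * i + 7 * w + 4)
    i (by omega) (by omega) (by omega) (by omega) (by omega)
  have f2 := fam (j + 1) (M + 2 * i + w + 2) (M + 5 * i + 4 * w + 4) (M + 5 * i + 7 * w + 3)
    w (by omega) (by omega) (by omega) (by omega) (by omega)
  have f3 := fam (j + 1) (M + 2 * i + 2 * w + 2) (M + 3 * i + 3 * w + 2) (M + 7 * i + 7 * w + 5)
    i (by omega) (by omega) (by omega) (by omega) (by omega)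
  have f4 := fam (j + 1) (M + 3 * i + 2 * w + 2) (M + 4 * i + 3 * w + 3) (M + 5 * i + 7 * w + 4)
    w (by omega) (by omega) (by omega) (by omega) (by omega)
  have f5 := ((f1.union f2 (by unfold F; omega)).union f3 (by unfold F; omega)).union f4
    (by unfold F; omega)
  have f6 := (f5.three (M + 2 * i) (M + 5 * i + 5 * w + 4) (M + 5 * i + 7 * w + 5) (j + 1)
    (by unfold F; omega) (by unfold F; omega) (by unfold F; omega) (by omega) (by omega) (by omega)
    (by omega)).one (M + (4 * i + 4 * w + 3)) j (by unfold F; omega) hT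
  exact f6.congr (by unfold F; omega)

theorem cB (j T k U : ℕ) (hT : T = 3 ^ j) (h : 6 * k + 4 < T) (h1 : 2 * k + 2 ≤ U) (h2 : U ≤ 3 * k + 1) :
    G (fun x => (T ≤ x ∧ x ≤ T + (3 * k + 2)) ∨ (x < T ∧
      ((1 ≤ T - x ∧ T - x ≤ 3 * k + 1 ∧ T - x ≠ 3 * k + 2 - U ∧ T - x ≠ 2 * U - (3 * k + 2)) ∨
        T - x = 3 * k + 2 + U))) := by
  obtain ⟨i, rfl⟩ : ∃ i, U = 2 * k + 2 + i := ⟨U - (2 * k + 2), by omega⟩
  obtain ⟨w, rfl⟩ : ∃ w, k = i + w + 1 := ⟨k - i - 1, by omega⟩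
  obtain ⟨M, rfl⟩ : ∃ M, T = M + (6 * i + 6 * w + 9) := ⟨T - (6 * i + 6 * w + 9), by omega⟩
  have e := p3 hT
  have f1 := fam (j + 1) (M + 7 * i + 7 * w + 11) (M + 6 * i + 6 * w + 9) (M + 5 * i + 5 * w + 7)
    (i + w + 2) (by omega) (by omega) (by omega) (by omega) (by omega)
  have f2 := fam (j + 1) (M + 8 * i + 8 * w + 13) (M + 5 * i + 5 * w + 8) (M + 5 * i + 5 * w + 6)
    i (by omega) (by omega) (by omega) (by omega) (by omega)
  have f3 := fam (j + 1) (M + 9 * i + 8 * w + 14) (M + 6 * i + 5 * w + 9) (M + 3 * i + 5 * w + 4)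
    w (by omega) (by omega) (by omega) (by omega) (by omega)
  have f4 := (f1.union f2 (by unfold F; omega)).union f3 (by unfold F; omega)
  have f5 := f4.three (M + w) (M + 9 * i + 9 * w + 14) (M + 9 * i + 8 * w + 13) (j + 1)
    (by unfold F; omega) (by unfold F; omega) (by unfold F; omega) (by omega) (by omega) (by omega)
    (by omega)
  exact f5.congr (by unfold F; omega)

/-- the set `N` in type A -/
theorem nA (j S r a b : ℕ) (hS : S = 3 ^ j) (hr : r < S) (hr2 : S < 2 * r) (hab : a + b = S)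
    (ih : G (fun x => 1 ≤ x ∧ x ≤ S - r - 1)) :
    G (fun d => (1 ≤ d ∧ d ≤ r ∧ d ≠ a ∧ d ≠ b) ∨ d = S) ∨ r < a ∨ r < b := by
  by_cases h : r < a ∨ r < b
  · exact Or.inr h
  left
  have hp := pairs j S hS (fun x => S ≤ x + r ∧ x ≤ r ∧ x ≠ a ∧ x ≠ b) (by omega)
  exact ((ih.union hp (by omega)).one S j (by omega) hS).congr (by omega)

theorem pow_cases (U j i : ℕ) (hU : U = 3 ^ j) : 3 * 3 ^ i ≤ U ∨ 3 ^ i = U ∨ 3 * U ≤ 3 ^ i := by
  subst hU
  rcases lt_trichotomy i j with h | h | h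
  · left; rw [← pow_succ']; exact Nat.pow_le_pow_right (by norm_num) h
  · right; left; rw [h]
  · right; right; rw [← pow_succ']; exact Nat.pow_le_pow_right (by norm_num) h

theorem pow_mod3 (i : ℕ) : 3 ^ i % 3 = 0 ∨ 3 ^ i = 1 := by
  cases i with
  | zero => simp
  | succ i => left; rw [pow_succ]; omega

/-- the set `N` in type B -/
theorem nB (j U m : ℕ) (hU : U = 3 ^ j) (h : 2 * (3 * m + 2) < U)
    (ih : G (fun x => 1 ≤ x ∧ x ≤ 3 * m + 2)) :
    G (fun d => (1 ≤ d ∧ d ≤ U + 3 * m + 1 ∧ d ≠ 3 * m + 2 ∧ d ≠ U - (3 * m + 2)) ∨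
      d = 2 * U + 3 * m + 2) := by
  have e := p3 hU
  have ho : U % 2 = 1 := hU ▸ odd3 j
  have hk := kot j U m hU (by omega)
  suffices hh : G (fun d => (1 ≤ d ∧ d + (3 * m + 2) < U ∧ d ≠ 3 * m + 2) ∨
      d = 2 * U + 3 * m + 2) from (hk.union hh (by omega)).congr (by omega)
  have key : ∀ y, 1 ≤ y → y < 3 * m + 2 → 2 * (3 * m + 2) + y < U →
      G (fun x => x = 3 * m + 2 + y ∨ (1 ≤ x ∧ x < 3 * m + 2 ∧ x ≠ y)) →
      G (fun d => (1 ≤ d ∧ d + (3 * m + 2) < U ∧ d ≠ 3 * m + 2) ∨ d = 2 * U + 3 * m + 2) := by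
    intro y h1 h2 h3 hG
    have hp := pairs j U hU (fun x => 3 * m + 2 < x ∧ x + (3 * m + 2) < U ∧ x ≠ 3 * m + 2 + y ∧
      x + (3 * m + 2 + y) ≠ U) (by omega)
    exact ((hG.union hp (by omega)).three (2 * U + 3 * m + 2) y (U - (3 * m + 2 + y)) (j + 1)
      (by omega) (by omega) (by omega) (by omega) (by omega) (by omega) (by omega)).congr (by omega)
  rcases ih.extract (3 * m + 2) (by omega) with ⟨i, hi⟩ | ⟨y, i, h1, h2, h3, h4⟩ |
    ⟨y, z, i, h1, h2, h3, h4, h5, h6, h7⟩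
  · have := pow_mod3 i; omega
  · have := pow_cases U j i hU
    exact key y h1.1 (by omega) (by omega)
      ((h4.one (3 * m + 2 + y) i (by omega) h3).congr (by omega))
  · rcases pow_cases U j i hU with h8 | h8 | h8
    · exact key y h1.1 (by omega) (by omega)
        ((h7.two (3 * m + 2 + y) z i (by omega) (by omega) (by omega) h6).congr (by omega))
    · have hp := pairs j U hU (fun x => 3 * m + 2 < x ∧ x + (3 * m + 2) < U) (by omega)
      exact ((h7.union hp (by omega)).three (2 * U + 3 * m + 2) y z (j + 1)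
        (by omega) (by omega) (by omega) (by omega) (by omega) (by omega) (by omega)).congr
        (by omega)
    · omega

theorem ex3 (n : ℕ) (hn : 1 ≤ n) : ∃ t, 3 ^ t ≤ n ∧ n < 3 * 3 ^ t :=
  ⟨Nat.log 3 n, Nat.pow_log_le_self 3 (by omega), by
    rw [← pow_succ']; exact Nat.lt_pow_succ_log_self (by norm_num) n⟩

theorem main (n : ℕ) : G (fun x => 1 ≤ x ∧ x ≤ n) := by
  induction n using Nat.strong_induction_on with
  | _ n ih =>
  rcases Nat.eq_zero_or_pos n with rfl | hn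
  · exact G.nil.congr fun x => ⟨False.elim, fun h => by omega⟩
  obtain ⟨t, ht1, ht2⟩ := ex3 n hn
  generalize hT : 3 ^ t = T at ht1 ht2
  have hT := hT.symm
  have e := p3 hT
  have ho : T % 2 = 1 := hT ▸ odd3 t
  by_cases hb : 3 * T < 2 * n
  · have hp := pairs (t + 1) (3 * T) e (fun x => 3 * T ≤ x + n ∧ x ≤ n) (by omega)
    exact ((ih (3 * T - n - 1) (by omega)).union hp (by omega)).congr (by omega)
  obtain ⟨r, rfl⟩ : ∃ r, n = T + r := ⟨n - T, by omega⟩
  have hr : 2 * r < T := by omega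
  obtain ⟨k, rfl | rfl | rfl⟩ : ∃ k, r = 3 * k ∨ r = 3 * k + 1 ∨ r = 3 * k + 2 := ⟨r / 3, by omega⟩
  · exact red t T _ hT _ (ih (3 * k) (by omega)) (by omega) (c0 t T k hT hr)
  · exact red t T _ hT _ (ih (3 * k + 1) (by omega)) (by omega)
      ((kot t T k hT (by omega)).congr (by omega))
  obtain ⟨s, hs1, hs2⟩ := ex3 (3 * k + 2) (by omega)
  generalize hU : 3 ^ s = U at hs1 hs2
  have hU := hU.symm
  have eU := p3 hU
  have hoU : U % 2 = 1 := hU ▸ odd3 s
  have hc := pow_cases T t s hT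
  have hc' := pow_cases T t (s + 1) hT
  have hm := pow_mod3 s
  rw [← hU] at hc hm
  rw [← eU] at hc'
  by_cases hA : 3 * U < 2 * (3 * k + 2)
  · have hih := ih (3 * U - (3 * k + 2) - 1) (by omega)
    by_cases hg : 4 * k + 3 ≤ 3 * U
    · obtain ⟨i, hi⟩ : ∃ i, 3 * U + 2 * i = 6 * k + 3 := ⟨(6 * k + 3 - 3 * U) / 2, by omega⟩
      have hN := (nA (s + 1) (3 * U) (3 * k + 2) (3 * k + 1 - i) (3 * k + 2 - i) eU hs2 hA
        (by omega) hih).resolve_right (by omega)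
      exact red t T _ hT _ hN (by omega) ((cAg t T k i hT (by omega) (by omega)).congr (by omega))
    · obtain ⟨i, hi⟩ : ∃ i, 3 * U + 2 * i = 4 * k + 3 := ⟨(4 * k + 3 - 3 * U) / 2, by omega⟩
      have hN := (nA (s + 1) (3 * U) (3 * k + 2) (k + 1 - i) (3 * k + 2 - i) eU hs2 hA
        (by omega) hih).resolve_right (by omega)
      exact red t T _ hT _ hN (by omega) ((cAa t T k i hT (by omega) (by omega)).congr (by omega))
  · obtain ⟨m, hm2⟩ : ∃ m, 3 * k + 2 = U + (3 * m + 2) := ⟨(3 * k - U) / 3, by omega⟩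
    have hN := nB s U m hU (by omega) (ih (3 * m + 2) (by omega))
    exact red t T _ hT _ hN (by omega)
      ((cB t T k U hT (by omega) (by omega) (by omega)).congr (by omega))

end Pool.Agent.H.MP_b44c8b_co
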